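import Mathlib

/-!
# Graph isomorphism is not NP-complete under order-free logical reductions

The source problems are decision problems on finite pure sets (finite structures over the empty
vocabulary), i.e. sets `R` of natural numbers: the instance `A` is a yes-instance iff `Nat.card A ∈ R`.
A reduction to GRAPH ISOMORPHISM is a pair of interpretations of graphs in pure sets, of arbitrary
dimensions, whose defining formulas belong to the infinitary logic with finitely many variables, extended by
modular counting quantifiers (modulus `Q`) and by cardinality comparison (hence majority) quantifiers. No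
linear order is available. First-order logic and the usual fixed-point logics are contained in this logic.

We show that the problem whether the number of elements is not a perfect square (which is trivially
decidable in polynomial time) has no such reduction to GRAPH ISOMORPHISM.

Idea: let `n = m + p * j` with `p` a prime that is large compared to `m`. A permutation of order `p` of an
`n`-element set with exactly `m` fixed points induces automorphisms `a`, `b` of the two graphs `G`, `H`
interpreted in it, and the fixed vertices of `a`, `b` form copies of the graphs interpreted in an `m`-element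
set. If `G` and `H` are isomorphic, Sylow's theorem and counting of fixed points modulo `p` show that the two
fixed-vertex graphs are isomorphic as well. So yes-instances of size `n` force yes-instances of size `m`.
-/

namespace Pool.Agent.CRH.Withdrawn.OrderFree

open MulAction

/-- Formulas over the empty vocabulary whose variables (free or quantified, re-use allowed) come from `V`:
equality atoms, negation, arbitrary (also infinite) conjunctions, existential quantification,
`cnt i c φ` (the number of values of `i` satisfying `φ` is congruent to `c` modulo `Q`) and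
`more i φ ψ` (at least as many values of `i` satisfy `φ` as satisfy `ψ`). -/
inductive Fml (Q : ℕ) (V : Type) : Type 1
  | eq (i j : V) : Fml Q V
  | neg (φ : Fml Q V) : Fml Q V
  | conj (ι : Type) (φ : ι → Fml Q V) : Fml Q V
  | ex (i : V) (φ : Fml Q V) : Fml Q V
  | cnt (i : V) (c : ℕ) (φ : Fml Q V) : Fml Q V
  | more (i : V) (φ ψ : Fml Q V) : Fml Q V

/-- Truth of a formula in the pure set `A` under the assignment `v`. -/
def Fml.Holds {Q : ℕ} {V A : Type} [DecidableEq V] : Fml Q V → (V → A) → Prop
  | .eq i j, v => v i = v j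
  | .neg φ, v => ¬ φ.Holds v
  | .conj _ φ, v => ∀ s, (φ s).Holds v
  | .ex i φ, v => ∃ a : A, φ.Holds (Function.update v i a)
  | .cnt i c φ, v => Nat.card {a : A // φ.Holds (Function.update v i a)} ≡ c [MOD Q]
  | .more i φ ψ, v => Nat.card {a : A // ψ.Holds (Function.update v i a)} ≤
      Nat.card {a : A // φ.Holds (Function.update v i a)}

/-- The relation defined by a formula with main variables `X` and `r` auxiliary variables: the formula holds
for all values of the auxiliary variables (whose values do not matter when they do not occur free). -/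
def Fml.Sat {Q r : ℕ} {X A : Type} [DecidableEq X] (φ : Fml Q (X ⊕ Fin r)) (x : X → A) : Prop :=
  ∀ u : Fin r → A, φ.Holds (Sum.elim x u)

/-- A parameter-free, order-free interpretation of a graph in pure sets, of dimension `k`, using `r`
auxiliary variables: a domain formula, an equality formula and an edge formula. -/
structure Interp (Q : ℕ) where
  /-- the dimension -/
  k : ℕ
  /-- the number of auxiliary variables -/
  r : ℕ
  /-- the `k`-tuples representing vertices -/
  dom : Fml Q (Fin k ⊕ Fin r)
  /-- two `k`-tuples represent the same vertex -/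
  eqv : Fml Q ((Fin k ⊕ Fin k) ⊕ Fin r)
  /-- two `k`-tuples represent adjacent vertices -/
  adj : Fml Q ((Fin k ⊕ Fin k) ⊕ Fin r)

/-- `I` interprets the graph `G` in the pure set `A`: the vertices of `G` are represented by the `k`-tuples of
elements of `A` satisfying the domain formula, the equality formula says that two tuples represent the same
vertex, and the edge formula says that they represent adjacent vertices. -/
def Interp.Gives {Q : ℕ} (I : Interp Q) (A : Type) {V : Type} (G : SimpleGraph V) : Prop :=
  ∃ g : {x : Fin I.k → A // I.dom.Sat x} → V, Function.Surjective g ∧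
    (∀ x y, g x = g y ↔ I.eqv.Sat (Sum.elim x.1 y.1)) ∧
    (∀ x y, G.Adj (g x) (g y) ↔ I.adj.Sat (Sum.elim x.1 y.1))

/-- The decision problem `R` on finite pure sets (`A` is a yes-instance iff `Nat.card A ∈ R`) reduces to
GRAPH ISOMORPHISM on all sufficiently large instances: there are two interpretations such that, for every
finite set `A` with at least `n₀` elements, they interpret graphs `G` and `H` in `A`, and `A` is a
yes-instance iff `G` and `H` are isomorphic. -/
def ReducesToGI (Q : ℕ) (R : Set ℕ) : Prop :=
  ∃ (I J : Interp Q) (n₀ : ℕ), ∀ (A : Type) [Finite A], n₀ ≤ Nat.card A →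
    ∃ (V W : Type) (G : SimpleGraph V) (H : SimpleGraph W),
      I.Gives A G ∧ J.Gives A H ∧ (Nat.card A ∈ R ↔ Nonempty (G ≃g H))

/-! ### Formulas only see equality types -/

/-- Same equality type. -/
def SameType {V A B : Type} (v : V → A) (u : V → B) : Prop := ∀ i j, v i = v j ↔ u i = u j

theorem SameType.symm {V A B : Type} {v : V → A} {u : V → B} (h : SameType v u) : SameType u v :=
  fun i j => (h i j).symm

theorem SameType.trans {V A B C : Type} {v : V → A} {u : V → B} {w : V → C} (h : SameType v u)
    (h' : SameType u w) : SameType v w :=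
  fun i j => (h i j).trans (h' i j)

theorem sameType_comp {V A B : Type} (v : V → A) (e : A → B) (he : Function.Injective e) :
    SameType v (e ∘ v) := fun _ _ => he.eq_iff.symm

theorem exists_emb {V A B : Type} [Finite V] [Finite A] [Finite B] (hAB : Nat.card A ≤ Nat.card B)
    (v : V → A) (u : V → B) (h : SameType v u) :
    ∃ e : A → B, Function.Injective e ∧ ∀ j, e (v j) = u j := by
  classical
  have := Fintype.ofFinite V
  have := Fintype.ofFinite A
  have := Fintype.ofFinite B
  rw [Nat.card_eq_fintype_card, Nat.card_eq_fintype_card] at hAB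
  rcases isEmpty_or_nonempty A with hA | hA
  · exact ⟨fun a => hA.elim a, fun a => hA.elim a, fun j => hA.elim (v j)⟩
  have hB : Nonempty B := by
    rw [← Fintype.card_pos_iff] at hA ⊢
    omega
  obtain ⟨b0⟩ := hB
  -- partial map
  let f : A → B := fun a => if hh : ∃ j, v j = a then u hh.choose else b0
  have hf : ∀ j, f (v j) = u j := by
    intro j
    have hh : ∃ j', v j' = v j := ⟨j, rfl⟩
    simp only [f, dif_pos hh]
    exact (h _ _).1 hh.choose_spec
  have hcard : (Finset.univ.image u).card ≤ Fintype.card A := by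
    have : (Finset.univ.image u) = (Finset.univ.image v).image f := by
      ext b
      simp only [Finset.mem_image, Finset.mem_univ, true_and]
      constructor
      · rintro ⟨j, rfl⟩
        exact ⟨v j, ⟨j, rfl⟩, hf j⟩
      · rintro ⟨a, ⟨j, rfl⟩, rfl⟩
        exact ⟨j, (hf j).symm⟩
    rw [this]
    exact Finset.card_image_le.trans (Finset.card_le_univ _)
  obtain ⟨t, ht1, ht2, ht3⟩ := Finset.exists_subsuperset_card_eq (Finset.subset_univ (Finset.univ.image u))
    hcard (by rw [Finset.card_univ]; exact hAB)
  have hmaps : Set.MapsTo f (Set.range v) t := by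
    rintro _ ⟨j, rfl⟩
    rw [hf j]
    exact ht1 (Finset.mem_image_of_mem u (Finset.mem_univ j))
  have hinj : Set.InjOn f (Set.range v) := by
    rintro _ ⟨j, rfl⟩ _ ⟨j', rfl⟩ hjj
    rw [hf, hf] at hjj
    exact (h _ _).2 hjj
  obtain ⟨g, hg⟩ := hmaps.exists_equiv_extend_of_card_eq (by rw [ht3]) hinj
  refine ⟨fun a => (g a : B), fun a a' haa => g.injective (Subtype.ext haa), fun j => ?_⟩
  show (g (v j) : B) = u j
  rw [hg (v j) ⟨j, rfl⟩, hf]

theorem sameType_update {V A B : Type} [DecidableEq V] {v : V → A} {u : V → B} (h : SameType v u)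
    (i : V) (a : A) (b : B) (hab : ∀ j, j ≠ i → (v j = a ↔ u j = b)) :
    SameType (Function.update v i a) (Function.update u i b) := by
  intro x y
  by_cases hx : x = i
  · by_cases hy : y = i
    · subst hx; subst hy; simp
    · subst hx
      rw [Function.update_self, Function.update_self, Function.update_of_ne hy,
        Function.update_of_ne hy, eq_comm, hab y hy, eq_comm]
  · by_cases hy : y = i
    · subst hy
      rw [Function.update_self, Function.update_self, Function.update_of_ne hx,
        Function.update_of_ne hx, hab x hx]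
    · rw [Function.update_of_ne hx, Function.update_of_ne hx, Function.update_of_ne hy,
        Function.update_of_ne hy]
      exact h x y

theorem exists_fresh {V B : Type} [Finite V] [Finite B] (u : V → B) (i : V)
    (hB : Nat.card V ≤ Nat.card B) : ∃ b : B, ∀ j, j ≠ i → u j ≠ b := by
  classical
  have := Fintype.ofFinite V
  have := Fintype.ofFinite B
  rw [Nat.card_eq_fintype_card, Nat.card_eq_fintype_card] at hB
  by_contra hcon
  push Not at hcon
  have h1 : (Finset.univ : Finset B) ⊆ (Finset.univ.erase i).image u := by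
    intro b _
    obtain ⟨j, hj, hjb⟩ := hcon b
    exact Finset.mem_image.2 ⟨j, Finset.mem_erase.2 ⟨hj, Finset.mem_univ j⟩, hjb⟩
  have h2 := Finset.card_le_card h1
  rw [Finset.card_univ] at h2
  have h3 := h2.trans Finset.card_image_le
  rw [Finset.card_erase_of_mem (Finset.mem_univ i), Finset.card_univ] at h3
  have h4 : 0 < Fintype.card V := Fintype.card_pos_iff.2 ⟨i⟩
  omega

theorem extend_one {V A B : Type} [DecidableEq V] [Finite V] [Finite B] (v : V → A) (u : V → B)
    (h : SameType v u) (hB : Nat.card V ≤ Nat.card B) (i : V) (a : A) :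
    ∃ b : B, SameType (Function.update v i a) (Function.update u i b) := by
  classical
  by_cases hex : ∃ j, j ≠ i ∧ v j = a
  · obtain ⟨j, hj, hja⟩ := hex
    refine ⟨u j, sameType_update h i a (u j) ?_⟩
    intro j' hj'
    rw [← hja]
    exact h j' j
  · obtain ⟨b, hb⟩ := exists_fresh u i hB
    refine ⟨b, sameType_update h i a b ?_⟩
    intro j hj
    constructor
    · intro h'; exact absurd ⟨j, hj, h'⟩ hex
    · intro h'; exact absurd h' (hb j hj)

/-- Counting one variable: either only values already used count (the same number in both sets), or all but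
at most `card V - 1` values count, and the two counts differ by the difference of the cardinalities. -/
theorem count_dichotomy {V A B : Type} [DecidableEq V] [Finite V] [Finite A] [Finite B]
    (P : ∀ {C : Type}, (V → C) → Prop)
    (hP : ∀ v' : V → A, ∀ u' : V → B, SameType v' u' → (P v' ↔ P u'))
    (hP' : ∀ u' u'' : V → B, SameType u' u'' → (P u' ↔ P u''))
    (hA : Nat.card V ≤ Nat.card A)
    (hle : Nat.card A ≤ Nat.card B)
    (v : V → A) (u : V → B) (h : SameType v u) (i : V) :
    (Nat.card {b : B // P (Function.update u i b)} = Nat.card {a : A // P (Function.update v i a)} ∧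
      Nat.card {a : A // P (Function.update v i a)} < Nat.card V) ∨
    (Nat.card {b : B // P (Function.update u i b)} + Nat.card A =
        Nat.card {a : A // P (Function.update v i a)} + Nat.card B ∧
      Nat.card A < Nat.card {a : A // P (Function.update v i a)} + Nat.card V) := by
  classical
  obtain ⟨e, he, hev⟩ := exists_emb hle (fun j : {j // j ≠ i} => v j) (fun j : {j // j ≠ i} => u j)
    (fun x y => h x y)
  have hTe : ∀ a, P (Function.update v i a) ↔ P (Function.update u i (e a)) := by
    intro a
    apply hP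
    apply sameType_update h
    intro j hj
    rw [← hev ⟨j, hj⟩]
    exact he.eq_iff.symm
  -- two fresh values of `B` behave in the same way
  have hT' : ∀ b b', (∀ j, j ≠ i → u j ≠ b) → (∀ j, j ≠ i → u j ≠ b') →
      (P (Function.update u i b) ↔ P (Function.update u i b')) := by
    intro b b' hb hb'
    apply hP'
    apply sameType_update (fun _ _ => Iff.rfl)
    intro j hj
    exact ⟨fun h' => absurd h' (hb j hj), fun h' => absurd h' (hb' j hj)⟩
  have hfresh : ∀ b, b ∉ Set.range e → ∀ j, j ≠ i → u j ≠ b := by
    intro b hb j hj hjb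
    exact hb ⟨v j, (hev ⟨j, hj⟩).trans hjb⟩
  have hset : {b : B | P (Function.update u i b)} =
      e '' {a : A | P (Function.update v i a)} ∪
        ({b : B | P (Function.update u i b)} ∩ (Set.range e)ᶜ) := by
    ext b
    constructor
    · intro hb
      by_cases hbr : b ∈ Set.range e
      · obtain ⟨a, rfl⟩ := hbr
        left
        exact ⟨a, (hTe a).2 hb, rfl⟩
      · right
        exact ⟨hb, hbr⟩
    · rintro (⟨a, ha, rfl⟩ | hb)
      · exact (hTe a).1 ha
      · exact hb.1
  have hdisj : Disjoint (e '' {a : A | P (Function.update v i a)})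
      ({b : B | P (Function.update u i b)} ∩ (Set.range e)ᶜ) := by
    rw [Set.disjoint_left]
    rintro _ ⟨a, _, rfl⟩ hb
    exact hb.2 ⟨a, rfl⟩
  have hcard : Nat.card {b : B // P (Function.update u i b)} =
      Nat.card {a : A // P (Function.update v i a)} +
        ({b : B | P (Function.update u i b)} ∩ (Set.range e)ᶜ).ncard := by
    have e1 : Nat.card {b : B // P (Function.update u i b)} = {b : B | P (Function.update u i b)}.ncard := rfl
    have e2 : Nat.card {a : A // P (Function.update v i a)} = {a : A | P (Function.update v i a)}.ncard := rfl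
    rw [e1, e2]
    conv_lhs => rw [hset]
    rw [Set.ncard_union_eq hdisj, Set.ncard_image_of_injective _ he]
  have hcompl : (Set.range e)ᶜ.ncard + Nat.card A = Nat.card B := by
    have h1 := Set.ncard_add_ncard_compl (Set.range e)
    have h2 : (Set.range e).ncard = Nat.card A := by
      rw [← Set.image_univ, Set.ncard_image_of_injective _ he, Set.ncard_univ]
    rw [h2] at h1
    omega
  -- the values of `A` already used
  have hold : (v '' {j | j ≠ i}).ncard < Nat.card V := by
    have h1 : (v '' {j | j ≠ i}).ncard ≤ ({j | j ≠ i} : Set V).ncard := Set.ncard_image_le (Set.toFinite _)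
    have h2 : ({j | j ≠ i} : Set V).ncard < (Set.univ : Set V).ncard := by
      apply Set.ncard_lt_ncard _ (Set.toFinite _)
      rw [Set.ssubset_univ_iff]
      intro h'
      have : i ∈ ({j | j ≠ i} : Set V) := by rw [h']; trivial
      exact this rfl
    rw [Set.ncard_univ] at h2
    omega
  have hcount : Nat.card {a : A // P (Function.update v i a)} =
      {a : A | P (Function.update v i a)}.ncard := rfl
  obtain ⟨a₀, ha₀⟩ := exists_fresh v i hA
  have ha₀' : ∀ j, j ≠ i → u j ≠ e a₀ := by
    intro j hj hje
    rw [← hev ⟨j, hj⟩] at hje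
    exact ha₀ j hj (he hje)
  by_cases hPa : P (Function.update v i a₀)
  · right
    have hPb := (hTe a₀).1 hPa
    constructor
    · have : {b : B | P (Function.update u i b)} ∩ (Set.range e)ᶜ = (Set.range e)ᶜ := by
        ext b
        constructor
        · exact fun hb => hb.2
        · intro hb
          exact ⟨(hT' (e a₀) b ha₀' (hfresh b hb)).1 hPb, hb⟩
      rw [hcard, this]
      omega
    · have hsub : (v '' {j | j ≠ i})ᶜ ⊆ {a : A | P (Function.update v i a)} := by
        intro a ha
        have ha' : ∀ j, j ≠ i → u j ≠ e a := by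
          intro j hj hje
          rw [← hev ⟨j, hj⟩] at hje
          exact ha ⟨j, hj, he hje⟩
        exact (hTe a).2 ((hT' (e a₀) (e a) ha₀' ha').1 hPb)
      have h1 := Set.ncard_le_ncard hsub (Set.toFinite _)
      have h2 := Set.ncard_add_ncard_compl (v '' {j | j ≠ i})
      omega
  · left
    constructor
    · have : {b : B | P (Function.update u i b)} ∩ (Set.range e)ᶜ = ∅ := by
        ext b
        constructor
        · rintro ⟨hb, hbr⟩
          exact absurd ((hTe a₀).2 ((hT' b (e a₀) (hfresh b hbr) ha₀').1 hb)) hPa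
        · intro hb
          exact absurd hb (Set.notMem_empty b)
      rw [hcard, this, Set.ncard_empty, add_zero]
    · have hsub : {a : A | P (Function.update v i a)} ⊆ v '' {j | j ≠ i} := by
        intro a ha
        by_contra hcon
        have ha' : ∀ j, j ≠ i → u j ≠ e a := by
          intro j hj hje
          rw [← hev ⟨j, hj⟩] at hje
          exact hcon ⟨j, hj, he hje⟩
        exact hPa ((hTe a₀).2 ((hT' (e a) (e a₀) ha' ha₀').1 ((hTe a).1 ha)))
      have h1 := Set.ncard_le_ncard hsub (Set.toFinite _)
      omega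

theorem holds_congr {Q : ℕ} {V : Type} [DecidableEq V] [Finite V] (φ : Fml Q V) :
    ∀ (A B : Type) [Finite A] [Finite B], 2 * Nat.card V ≤ Nat.card A → 2 * Nat.card V ≤ Nat.card B →
      Nat.card A ≡ Nat.card B [MOD Q] → ∀ (v : V → A) (u : V → B), SameType v u →
      (φ.Holds v ↔ φ.Holds u) := by
  induction φ with
  | eq i j => intro A B _ _ _ _ _ v u h; exact h i j
  | neg φ ih =>
    intro A B _ _ hA hB hQ v u h
    exact not_congr (ih A B hA hB hQ v u h)
  | conj ι φ ih =>
    intro A B _ _ hA hB hQ v u h
    exact forall_congr' fun s => ih s A B hA hB hQ v u h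
  | ex i φ ih =>
    intro A B _ _ hA hB hQ v u h
    constructor
    · rintro ⟨a, ha⟩
      obtain ⟨b, hb⟩ := extend_one v u h (by omega) i a
      exact ⟨b, (ih A B hA hB hQ _ _ hb).1 ha⟩
    · rintro ⟨b, hb⟩
      obtain ⟨a, ha⟩ := extend_one u v h.symm (by omega) i b
      exact ⟨a, (ih A B hA hB hQ _ _ ha.symm).2 hb⟩
  | cnt i c φ ih =>
    have key : ∀ (A B : Type) [Finite A] [Finite B], 2 * Nat.card V ≤ Nat.card A →
        2 * Nat.card V ≤ Nat.card B → Nat.card A ≤ Nat.card B → Nat.card A ≡ Nat.card B [MOD Q] →
        ∀ (v : V → A) (u : V → B), SameType v u →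
        Nat.card {a : A // φ.Holds (Function.update v i a)} ≡
          Nat.card {b : B // φ.Holds (Function.update u i b)} [MOD Q] := by
      intro A B _ _ hA hB hle hQ v u h
      rcases count_dichotomy (fun {C} => φ.Holds) (fun v' u' h' => ih A B hA hB hQ v' u' h')
          (fun v' u' h' => ih B B hB hB rfl v' u' h') (by omega) hle v u h i with ⟨h1, -⟩ | ⟨h1, -⟩
      · rw [h1]
      · have h2 : Nat.card {a : A // φ.Holds (Function.update v i a)} + Nat.card B ≡
            Nat.card {b : B // φ.Holds (Function.update u i b)} + Nat.card B [MOD Q] := by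
          rw [← h1]
          exact Nat.ModEq.add_left _ hQ
        exact Nat.ModEq.add_right_cancel' _ h2
    intro A B _ _ hA hB hQ v u h
    show Nat.card _ ≡ c [MOD Q] ↔ Nat.card _ ≡ c [MOD Q]
    rcases le_total (Nat.card A) (Nat.card B) with hle | hle
    · have k := key A B hA hB hle hQ v u h
      exact ⟨fun h' => k.symm.trans h', fun h' => k.trans h'⟩
    · have k := key B A hB hA hle hQ.symm u v h.symm
      exact ⟨fun h' => k.trans h', fun h' => k.symm.trans h'⟩
  | more i φ ψ ih ih' =>
    have key : ∀ (A B : Type) [Finite A] [Finite B], 2 * Nat.card V ≤ Nat.card A →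
        2 * Nat.card V ≤ Nat.card B → Nat.card A ≤ Nat.card B → Nat.card A ≡ Nat.card B [MOD Q] →
        ∀ (v : V → A) (u : V → B), SameType v u →
        (Nat.card {a : A // ψ.Holds (Function.update v i a)} ≤
          Nat.card {a : A // φ.Holds (Function.update v i a)} ↔
        Nat.card {b : B // ψ.Holds (Function.update u i b)} ≤
          Nat.card {b : B // φ.Holds (Function.update u i b)}) := by
      intro A B _ _ hA hB hle hQ v u h
      rcases count_dichotomy (fun {C} => φ.Holds) (fun v' u' h' => ih A B hA hB hQ v' u' h')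
          (fun v' u' h' => ih B B hB hB rfl v' u' h') (by omega) hle v u h i with h1 | h1 <;>
      rcases count_dichotomy (fun {C} => ψ.Holds) (fun v' u' h' => ih' A B hA hB hQ v' u' h')
          (fun v' u' h' => ih' B B hB hB rfl v' u' h') (by omega) hle v u h i with h2 | h2 <;>
      omega
    intro A B _ _ hA hB hQ v u h
    rcases le_total (Nat.card A) (Nat.card B) with hle | hle
    · exact key A B hA hB hle hQ v u h
    · exact (key B A hB hA hle hQ.symm u v h.symm).symm

theorem sat_congr {Q r : ℕ} {X A B : Type} [DecidableEq X] [Finite X] [Finite A] [Finite B]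
    (φ : Fml Q (X ⊕ Fin r))
    (hA : 2 * (Nat.card X + r) ≤ Nat.card A) (hB : 2 * (Nat.card X + r) ≤ Nat.card B)
    (hQ : Nat.card A ≡ Nat.card B [MOD Q]) (x : X → A) (y : X → B) (h : SameType x y) :
    φ.Sat x ↔ φ.Sat y := by
  have hc : Nat.card (X ⊕ Fin r) = Nat.card X + r := by
    rw [Nat.card_sum, Nat.card_eq_fintype_card (α := Fin r), Fintype.card_fin]
  have main : ∀ (A B : Type) [Finite A] [Finite B] (hA : 2 * (Nat.card X + r) ≤ Nat.card A)
    (hB : 2 * (Nat.card X + r) ≤ Nat.card B)
    (hQ : Nat.card A ≡ Nat.card B [MOD Q]) (x : X → A) (y : X → B) (h : SameType x y),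
    φ.Sat x → φ.Sat y := by
    intro A B _ _ hA hB hQ x y h hx w
    -- the finite set of values
    let S : Set B := Set.range (Sum.elim y w)
    have hS : Nat.card S ≤ Nat.card A := by
      have h1 : Nat.card S ≤ Nat.card (X ⊕ Fin r) :=
        Nat.card_le_card_of_surjective (Set.rangeFactorization (Sum.elim y w))
          Set.rangeFactorization_surjective
      omega
    obtain ⟨e, he, hev⟩ := exists_emb hS (fun j : X => (⟨y j, ⟨Sum.inl j, rfl⟩⟩ : S)) x
      (fun i j => by rw [Subtype.mk.injEq]; exact (h i j).symm)
    let u : Fin r → A := fun s => e ⟨w s, ⟨Sum.inr s, rfl⟩⟩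
    have hu := hx u
    refine (holds_congr φ A B (by omega) (by omega) hQ _ _ ?_).1 hu
    have e1 : Sum.elim x u = e ∘ (fun t : X ⊕ Fin r => (⟨Sum.elim y w t, ⟨t, rfl⟩⟩ : S)) := by
      ext t
      rcases t with t | t
      · exact (hev t).symm
      · rfl
    rw [e1]
    apply SameType.symm
    intro i j
    rw [Function.comp, Function.comp, he.eq_iff, Subtype.mk.injEq]
  exact ⟨main A B hA hB hQ x y h, main B A hB hA hQ.symm y x h.symm⟩


/-! ### The Sylow argument -/

/-- If a `p`-subgroup `Q` of the automorphism group contains `a`, `a ^ p = 1` and `a` fixes fewer than `p`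
vertices, then `Q` fixes every vertex fixed by `a`. -/
theorem fixed_of_mem {V : Type} [Finite V] (G : SimpleGraph V) (p : ℕ) [hp : Fact p.Prime]
    (a : G ≃g G) (ha : a ^ p = 1) (hfa : Nat.card {v // a v = v} < p)
    (Q : Subgroup (G ≃g G)) (hQ : IsPGroup p Q) (haQ : a ∈ Q) (v : V) (hv : a v = v) :
    ∀ g ∈ Q, g v = v := by
  classical
  have hQfix : Nat.card V ≡ Nat.card (fixedPoints Q V) [MOD p] := hQ.card_modEq_card_fixedPoints V
  have hP : IsPGroup p (Subgroup.zpowers a) := by
    rintro ⟨g, hg⟩
    obtain ⟨n, rfl⟩ := Subgroup.mem_zpowers_iff.1 hg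
    refine ⟨1, ?_⟩
    ext v
    simp only [pow_one]
    have : ((a ^ n) ^ p) = 1 := by
      rw [← zpow_natCast, ← zpow_mul, mul_comm, zpow_mul, zpow_natCast, ha, one_zpow]
    rw [Subtype.ext_iff.2 (show ((⟨a ^ n, hg⟩ : Subgroup.zpowers a) ^ p : Subgroup.zpowers a).1 = (1 : Subgroup.zpowers a).1 from this)]
  have hPfix : Nat.card V ≡ Nat.card (fixedPoints (Subgroup.zpowers a) V) [MOD p] :=
    hP.card_modEq_card_fixedPoints V
  have hsub : fixedPoints Q V ⊆ {v | a v = v} := by
    intro w hw
    exact hw ⟨a, haQ⟩
  have hPeq : fixedPoints (Subgroup.zpowers a) V = {v | a v = v} := by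
    ext w
    constructor
    · intro hw
      exact hw ⟨a, Subgroup.mem_zpowers a⟩
    · intro hw
      have hst : a ∈ stabilizer (G ≃g G) w := hw
      rintro ⟨g, hg⟩
      have : Subgroup.zpowers a ≤ stabilizer (G ≃g G) w := by
        rw [Subgroup.zpowers_le]; exact hst
      exact this hg
  have hc1 : Nat.card (fixedPoints Q V) ≤ Nat.card {v | a v = v} :=
    Nat.card_mono (Set.toFinite _) hsub
  have hc2 : Nat.card {v | a v = v} < p := hfa
  have hmod : Nat.card (fixedPoints Q V) ≡ Nat.card {v | a v = v} [MOD p] := by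
    rw [← hPeq]
    exact hQfix.symm.trans hPfix
  have heq : Nat.card (fixedPoints Q V) = Nat.card {v | a v = v} := by
    have h1 := Nat.ModEq.eq_of_lt_of_lt hmod (lt_of_le_of_lt hc1 hc2) hc2
    exact h1
  have hset : fixedPoints Q V = {v | a v = v} := by
    apply Set.eq_of_subset_of_ncard_le hsub _ (Set.toFinite _)
    have e1 : Set.ncard {v | a v = v} = Nat.card {v | a v = v} := rfl
    have e2 : Set.ncard (fixedPoints Q V) = Nat.card (fixedPoints Q V) := rfl
    rw [e1, e2, heq]
  have hvQ : v ∈ fixedPoints Q V := by rw [hset]; exact hv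
  intro g hg
  exact hvQ ⟨g, hg⟩

/-- Sylow argument: two `p`-power-order automorphisms of isomorphic finite graphs with fewer than `p`
fixed vertices have isomorphic fixed-vertex graphs. -/
theorem sylow_core {V W : Type} [Finite V] (G : SimpleGraph V) (H : SimpleGraph W)
    (f : G ≃g H) (p : ℕ) [hp : Fact p.Prime] (a : G ≃g G) (b : H ≃g H)
    (ha : a ^ p = 1) (hb : b ^ p = 1)
    (hfa : Nat.card {v // a v = v} < p) (hfb : Nat.card {v // b v = v} < p) :
    Nonempty (G.induce {v | a v = v} ≃g H.induce {w | b w = w}) := by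
  classical
  -- transport b to G
  let Γ := G ≃g G
  have : Finite Γ := Finite.of_injective (fun g : Γ => (g : V → V)) DFunLike.coe_injective
  let c : G ≃g G := (f.trans b).trans f.symm
  have hcapp : ∀ v, c v = f.symm (b (f v)) := fun v => rfl
  have hcpow : ∀ n : ℕ, ∀ v, (c ^ n) v = f.symm ((b ^ n) (f v)) := by
    intro n
    induction n with
    | zero => intro v; simp
    | succ n ih =>
      intro v
      rw [pow_succ, pow_succ]
      show (c ^ n) (c v) = f.symm ((b ^ n) (b (f v)))
      rw [ih (c v), hcapp]
      simp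
  have hc : c ^ p = 1 := by
    ext v
    rw [hcpow, hb]
    simp
  have hfc_iff : ∀ v, c v = v ↔ b (f v) = f v := by
    intro v
    rw [hcapp]
    constructor
    · intro h
      have := congrArg f h
      simpa using this
    · intro h
      rw [h]; simp
  have hfc : Nat.card {v // c v = v} < p := by
    have : Nat.card {v // c v = v} = Nat.card {w // b w = w} := by
      apply Nat.card_congr
      exact f.toEquiv.subtypeEquiv (fun v => hfc_iff v)
    rw [this]; exact hfb
  have pgrp : ∀ x : Γ, x ^ p = 1 → IsPGroup p (Subgroup.zpowers x) := by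
    rintro x hx ⟨g, hg⟩
    obtain ⟨n, rfl⟩ := Subgroup.mem_zpowers_iff.1 hg
    refine ⟨1, ?_⟩
    apply Subtype.ext
    show (x ^ n) ^ (p ^ 1) = 1
    rw [pow_one, ← zpow_natCast, ← zpow_mul, mul_comm, zpow_mul, zpow_natCast, hx, one_zpow]
  obtain ⟨Q, hQ⟩ := (pgrp a ha).exists_le_sylow
  obtain ⟨Q', hQ'⟩ := (pgrp c hc).exists_le_sylow
  obtain ⟨g, hg⟩ := MulAction.exists_smul_eq (G ≃g G) Q Q'
  have haQ : a ∈ (Q : Subgroup (G ≃g G)) := hQ (Subgroup.mem_zpowers a)
  have hcQ : c ∈ (Q' : Subgroup (G ≃g G)) := hQ' (Subgroup.mem_zpowers c)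
  have hfixQ : ∀ v, a v = v ↔ ∀ x ∈ (Q : Subgroup (G ≃g G)), x v = v := fun v =>
    ⟨fun hv => fixed_of_mem G p a ha hfa Q Q.2 haQ v hv, fun h => h a haQ⟩
  have hfixQ' : ∀ v, c v = v ↔ ∀ x ∈ (Q' : Subgroup (G ≃g G)), x v = v := fun v =>
    ⟨fun hv => fixed_of_mem G p c hc hfc Q' Q'.2 hcQ v hv, fun h => h c hcQ⟩
  have hmem : ∀ x : G ≃g G, x ∈ (Q' : Subgroup (G ≃g G)) ↔ g⁻¹ * x * g ∈ (Q : Subgroup (G ≃g G)) := by
    intro x
    rw [← hg]
    rw [Sylow.coe_subgroup_smul, Subgroup.mem_pointwise_smul_iff_inv_smul_mem, ← map_inv,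
      MulAut.smul_def, MulAut.conj_apply, inv_inv]
  have key : ∀ v, a v = v ↔ c (g v) = g v := by
    intro v
    rw [hfixQ, hfixQ']
    constructor
    · intro h x hx
      have h1 := h _ ((hmem x).1 hx)
      have h2 : (g⁻¹ * x * g) v = g⁻¹ (x (g v)) := rfl
      rw [h2] at h1
      have h3 := congrArg g h1
      have h4 : g (g⁻¹ (x (g v))) = x (g v) := by
        show (g * g⁻¹) (x (g v)) = x (g v)
        rw [mul_inv_cancel]; rfl
      rw [h4] at h3
      exact h3
    · intro h x hx
      have h1 := h (g * x * g⁻¹) ((hmem _).2 (by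
        have : g⁻¹ * (g * x * g⁻¹) * g = x := by group
        rw [this]; exact hx))
      have h2 : (g * x * g⁻¹) (g v) = g (x ((g⁻¹ * g) v)) := rfl
      rw [h2, inv_mul_cancel] at h1
      exact g.injective h1
  refine ⟨{ toEquiv := (g.toEquiv.trans f.toEquiv).subtypeEquiv (fun v => ?_), map_rel_iff' := ?_ }⟩
  · show a v = v ↔ b (f (g v)) = f (g v)
    rw [key, hfc_iff]
  · intro x y
    show H.Adj (f (g x.1)) (f (g y.1)) ↔ G.Adj x.1 y.1
    rw [f.map_adj_iff, g.map_adj_iff]


/-! ### Interpretations -/

theorem gives_unique {Q : ℕ} (I : Interp Q) (A : Type) {V V' : Type} (G : SimpleGraph V)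
    (G' : SimpleGraph V') (h : I.Gives A G) (h' : I.Gives A G') : Nonempty (G ≃g G') := by
  obtain ⟨g, hg, he, ha⟩ := h
  obtain ⟨g', hg', he', ha'⟩ := h'
  have hiff : ∀ x y, g x = g y ↔ g' x = g' y := fun x y => (he x y).trans (he' x y).symm
  let r := Function.surjInv hg
  let r' := Function.surjInv hg'
  have hr : ∀ v, g (r v) = v := Function.surjInv_eq hg
  have hr' : ∀ v, g' (r' v) = v := Function.surjInv_eq hg'
  refine ⟨{ toFun := fun v => g' (r v), invFun := fun v => g (r' v), left_inv := ?_,
            right_inv := ?_, map_rel_iff' := ?_ }⟩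
  · intro v
    show g (r' (g' (r v))) = v
    rw [(hiff _ _).2 (hr' (g' (r v))), hr]
  · intro v
    show g' (r (g (r' v))) = v
    rw [(hiff _ _).1 (hr (g (r' v))), hr']
  · intro v w
    show G'.Adj (g' (r v)) (g' (r w)) ↔ G.Adj v w
    rw [ha', ← ha, hr, hr]

section shift

variable {m j p : ℕ}

/-- the big set -/
abbrev Big (m j p : ℕ) : Type := Fin m ⊕ (Fin j × ZMod p)

def shift (z : ZMod p) (a : Big m j p) : Big m j p :=
  Sum.map id (Prod.map id (fun t => t + z)) a

theorem shift_zero (a : Big m j p) : shift 0 a = a := by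
  rcases a with a | ⟨a, b⟩ <;> simp [shift]

theorem shift_add (z w : ZMod p) (a : Big m j p) : shift z (shift w a) = shift (z + w) a := by
  rcases a with a | ⟨a, b⟩
  · simp [shift]
  · simp [shift, add_assoc, add_comm z w]

theorem shift_injective (z : ZMod p) : Function.Injective (shift (m := m) (j := j) z) := by
  intro a b h
  have := congrArg (shift (-z)) h
  rw [shift_add, shift_add] at this
  simpa [shift_zero] using this

end shift

theorem elim_comp {X Y A B : Type} (f : A → B) (x : X → A) (y : Y → A) :
    Sum.elim (f ∘ x) (f ∘ y) = f ∘ Sum.elim x y := by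
  ext t; rcases t with t | t <;> rfl

/-- The fixed-point analysis. -/
theorem fixed_structure {Q : ℕ} (I : Interp Q) (m j p : ℕ) [hp : Fact p.Prime] (hQ : Q ∣ p * j)
    (hm : 2 * (2 * I.k + I.r) ≤ m) (hpk : I.k ^ 2 < p) {V : Type} (G : SimpleGraph V)
    (h : I.Gives (Big m j p) G) :
    ∃ a : G ≃g G, a ^ p = 1 ∧ I.Gives (Fin m) (G.induce {v | a v = v}) := by
  classical
  obtain ⟨g, hg, he, ha⟩ := h
  have hcardB : Nat.card (Big m j p) = m + j * p := by
    rw [Nat.card_sum, Nat.card_prod, Nat.card_zmod, Nat.card_eq_fintype_card,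
      Nat.card_eq_fintype_card, Fintype.card_fin, Fintype.card_fin]
  have hcardm : Nat.card (Fin m) = m := by rw [Nat.card_eq_fintype_card, Fintype.card_fin]
  have hcard1 : Nat.card (Fin I.k) = I.k := by rw [Nat.card_eq_fintype_card, Fintype.card_fin]
  have hcard2 : Nat.card (Fin I.k ⊕ Fin I.k) = I.k + I.k := by
    rw [Nat.card_sum, hcard1]
  have : NeZero p := ⟨hp.out.ne_zero⟩
  have hmod : Nat.card (Fin m) ≡ Nat.card (Big m j p) [MOD Q] := by
    rw [hcardB, hcardm]
    exact (Nat.modEq_iff_dvd' (by omega)).2 (by
      rw [show m + j * p - m = p * j by rw [Nat.add_sub_cancel_left, mul_comm]]; exact hQ)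
  -- congruence facts
  have domB : ∀ x y : Fin I.k → Big m j p, SameType x y → (I.dom.Sat x ↔ I.dom.Sat y) := by
    intro x y hxy
    exact sat_congr I.dom (by omega) (by omega) rfl x y hxy
  have eqvB : ∀ x y : Fin I.k ⊕ Fin I.k → Big m j p, SameType x y → (I.eqv.Sat x ↔ I.eqv.Sat y) := by
    intro x y hxy
    exact sat_congr I.eqv (by omega) (by omega) rfl x y hxy
  have adjB : ∀ x y : Fin I.k ⊕ Fin I.k → Big m j p, SameType x y → (I.adj.Sat x ↔ I.adj.Sat y) := by
    intro x y hxy
    exact sat_congr I.adj (by omega) (by omega) rfl x y hxy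
  have domM : ∀ (x : Fin I.k → Fin m) (y : Fin I.k → Big m j p), SameType x y →
      (I.dom.Sat x ↔ I.dom.Sat y) := by
    intro x y hxy
    exact sat_congr I.dom (by omega) (by omega) hmod x y hxy
  have eqvM : ∀ (x : Fin I.k ⊕ Fin I.k → Fin m) (y : Fin I.k ⊕ Fin I.k → Big m j p), SameType x y →
      (I.eqv.Sat x ↔ I.eqv.Sat y) := by
    intro x y hxy
    exact sat_congr I.eqv (by omega) (by omega) hmod x y hxy
  have adjM : ∀ (x : Fin I.k ⊕ Fin I.k → Fin m) (y : Fin I.k ⊕ Fin I.k → Big m j p), SameType x y →
      (I.adj.Sat x ↔ I.adj.Sat y) := by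
    intro x y hxy
    exact sat_congr I.adj (by omega) (by omega) hmod x y hxy

  -- shifting tuples
  let dz : ZMod p → {x : Fin I.k → Big m j p // I.dom.Sat x} → {x : Fin I.k → Big m j p // I.dom.Sat x} :=
    fun z x => ⟨shift z ∘ x.1, (domB x.1 (shift z ∘ x.1) (sameType_comp x.1 _ (shift_injective z))).1 x.2⟩
  have hdz : ∀ z x y, g (dz z x) = g (dz z y) ↔ g x = g y := by
    intro z x y
    rw [he, he]
    show I.eqv.Sat (Sum.elim (shift z ∘ x.1) (shift z ∘ y.1)) ↔ _
    rw [elim_comp]
    exact (eqvB _ _ (sameType_comp _ _ (shift_injective z))).symm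
  have hdzadj : ∀ z x y, G.Adj (g (dz z x)) (g (dz z y)) ↔ G.Adj (g x) (g y) := by
    intro z x y
    rw [ha, ha]
    show I.adj.Sat (Sum.elim (shift z ∘ x.1) (shift z ∘ y.1)) ↔ _
    rw [elim_comp]
    exact (adjB _ _ (sameType_comp _ _ (shift_injective z))).symm
  have hdzadd : ∀ z w x, dz z (dz w x) = dz (z + w) x := by
    intro z w x
    apply Subtype.ext
    funext s
    exact shift_add z w (x.1 s)
  have hdz0 : ∀ x, dz 0 x = x := by
    intro x
    apply Subtype.ext
    funext s
    exact shift_zero (x.1 s)
  let rep := Function.surjInv hg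
  have hrep : ∀ v, g (rep v) = v := Function.surjInv_eq hg
  let act : ZMod p → V → V := fun z v => g (dz z (rep v))
  have hact : ∀ z x, act z (g x) = g (dz z x) := by
    intro z x
    exact (hdz z _ _).2 (hrep (g x))
  have hactadd : ∀ z w v, act z (act w v) = act (z + w) v := by
    intro z w v
    obtain ⟨x, rfl⟩ := hg v
    rw [hact w x, hact z (dz w x), hact (z + w) x, hdzadd]
  have hact0 : ∀ v, act 0 v = v := by
    intro v
    obtain ⟨x, rfl⟩ := hg v
    rw [hact, hdz0]
  let a : G ≃g G :=
    { toFun := act 1
      invFun := act (-1)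
      left_inv := fun v => by rw [hactadd, neg_add_cancel, hact0]
      right_inv := fun v => by rw [hactadd, add_neg_cancel, hact0]
      map_rel_iff' := by
        intro v w
        show G.Adj (g (dz 1 (rep v))) (g (dz 1 (rep w))) ↔ G.Adj v w
        rw [hdzadj, hrep, hrep] }
  have haact : ∀ v, a v = act 1 v := fun v => rfl
  have hpow : ∀ n : ℕ, ∀ v, (a ^ n) v = act (n : ZMod p) v := by
    intro n
    induction n with
    | zero =>
      intro v
      rw [Nat.cast_zero, hact0]; rfl
    | succ n ih =>
      intro v
      rw [pow_succ]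
      show (a ^ n) (a v) = _
      rw [ih, haact, hactadd, Nat.cast_succ]
  refine ⟨a, ?_, ?_⟩
  · ext v
    rw [hpow, ZMod.natCast_self, hact0]
    rfl
  -- the fixed vertices
  have hlift : ∀ x : {x : Fin I.k → Fin m // I.dom.Sat x}, I.dom.Sat ((Sum.inl : Fin m → Big m j p) ∘ x.1) :=
    fun x => (domM x.1 _ (sameType_comp _ _ Sum.inl_injective)).1 x.2
  have hfix : ∀ x : {x : Fin I.k → Fin m // I.dom.Sat x},
      a (g ⟨(Sum.inl : Fin m → Big m j p) ∘ x.1, hlift x⟩) = g ⟨(Sum.inl : Fin m → Big m j p) ∘ x.1, hlift x⟩ := by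
    intro x
    rw [haact, hact]
    congr 1
  refine ⟨fun x => ⟨g ⟨(Sum.inl : Fin m → Big m j p) ∘ x.1, hlift x⟩, hfix x⟩, ?_, ?_, ?_⟩
  · -- surjectivity
    rintro ⟨v, hv⟩
    have hv' : a v = v := hv
    obtain ⟨x, hx⟩ := hg v
    have hall : ∀ n : ℕ, act (n : ZMod p) v = v := by
      intro n
      induction n with
      | zero => rw [Nat.cast_zero, hact0]
      | succ n ih =>
        rw [Nat.cast_succ, ← hactadd, ← haact, hv', ih]
    have hall' : ∀ z : ZMod p, act z v = v := by
      intro z
      have := hall z.val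
      rwa [ZMod.natCast_zmod_val] at this
    -- choose a good shift
    let q : Big m j p → ZMod p := Sum.elim (fun _ => 0) Prod.snd
    let bad : Finset (ZMod p) :=
      Finset.univ.image (fun st : Fin I.k × Fin I.k => q (x.1 st.1) - q (x.1 st.2))
    have hbad : bad.card < Fintype.card (ZMod p) := by
      refine lt_of_le_of_lt Finset.card_image_le ?_
      rw [Finset.card_univ, Fintype.card_prod, Fintype.card_fin, ZMod.card]
      rw [← sq]; exact hpk
    obtain ⟨i, hi⟩ : ∃ i, i ∉ bad := by
      by_contra hcon
      push Not at hcon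
      have : bad = Finset.univ := Finset.eq_univ_of_forall hcon
      rw [this, Finset.card_univ] at hbad
      exact lt_irrefl _ hbad
    have hi' : ∀ s t : Fin I.k, x.1 s = shift i (x.1 t) → ∃ c, x.1 s = Sum.inl c := by
      intro s t hst
      rcases hs : x.1 s with c | ⟨c, z⟩
      · exact ⟨c, rfl⟩
      · exfalso
        rw [hs] at hst
        rcases ht : x.1 t with c' | ⟨c', z'⟩
        · rw [ht] at hst
          simp [shift] at hst
        · rw [ht] at hst
          simp only [shift, Sum.map_inr, Prod.map, Sum.inr.injEq, Prod.mk.injEq] at hst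
          apply hi
          refine Finset.mem_image.2 ⟨(s, t), Finset.mem_univ _, ?_⟩
          show q (x.1 s) - q (x.1 t) = i
          rw [hs, ht]
          show z - z' = i
          rw [hst.2]; ring
    -- the compressed tuple
    let S : Set (Big m j p) := Set.range x.1
    have hS : Nat.card S ≤ Nat.card (Fin m) := by
      have h1 : Nat.card S ≤ Nat.card (Fin I.k) :=
        Nat.card_le_card_of_surjective (Set.rangeFactorization x.1) Set.rangeFactorization_surjective
      omega
    obtain ⟨e, hei, hev⟩ := exists_emb hS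
      (fun s : {s : Fin I.k // ∃ c, x.1 s = Sum.inl c} => (⟨x.1 s.1, ⟨s.1, rfl⟩⟩ : S))
      (fun s : {s : Fin I.k // ∃ c, x.1 s = Sum.inl c} => s.2.choose) (by
        intro s t
        rw [Subtype.mk.injEq, s.2.choose_spec, t.2.choose_spec]
        exact ⟨fun h' => Sum.inl_injective h', fun h' => congrArg Sum.inl h'⟩)
    let x' : Fin I.k → Fin m := fun s => e ⟨x.1 s, ⟨s, rfl⟩⟩
    have hx'x : SameType x' x.1 := by
      intro s t
      show e _ = e _ ↔ _
      rw [hei.eq_iff, Subtype.mk.injEq]
    have hx'fix : ∀ s c, x.1 s = Sum.inl c → x' s = c := by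
      intro s c hs
      have h1 := hev ⟨s, ⟨c, hs⟩⟩
      have h2 : x' s = Exists.choose (⟨c, hs⟩ : ∃ c, x.1 s = Sum.inl c) := h1
      rw [h2]
      have h3 := Exists.choose_spec (⟨c, hs⟩ : ∃ c, x.1 s = Sum.inl c)
      exact Sum.inl_injective (h3.symm.trans hs)
    have hdomx' : I.dom.Sat x' := (domM x' x.1 hx'x).2 x.2
    refine ⟨⟨x', hdomx'⟩, ?_⟩
    apply Subtype.ext
    show g ⟨(Sum.inl : Fin m → Big m j p) ∘ x', _⟩ = v
    have hy : g (dz i x) = v := by
      have := hall' i
      rw [← hx, hact] at this
      rw [this, hx]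
    rw [← hy, he]
    show I.eqv.Sat (Sum.elim ((Sum.inl : Fin m → Big m j p) ∘ x') (shift i ∘ x.1))
    have hxy : I.eqv.Sat (Sum.elim x.1 (shift i ∘ x.1)) := by
      have : g x = g (dz i x) := by rw [hy, hx]
      exact (he _ _).1 this
    refine (eqvB _ _ ?_).1 hxy
    -- same type
    have hcross : ∀ s t, x.1 s = shift i (x.1 t) ↔ (Sum.inl (x' s) : Big m j p) = shift i (x.1 t) := by
      intro s t
      rcases hs : x.1 s with c | ⟨c, z⟩
      · rw [hx'fix s c hs]
      · constructor
        · intro h'
          rw [← hs] at h'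
          obtain ⟨c', hc'⟩ := hi' s t h'
          rw [hs] at hc'
          exact absurd hc' (by simp)
        · intro h'
          exfalso
          rcases ht : x.1 t with c' | ⟨c', z'⟩
          · rw [ht] at h'
            have h2 : x' s = c' := by
              have : (Sum.inl (x' s) : Big m j p) = Sum.inl c' := h'
              exact Sum.inl_injective this
            rw [← hx'fix t c' ht] at h2
            have h3 := (hx'x s t).1 h2
            rw [hs, ht] at h3
            exact absurd h3 (by simp)
          · rw [ht] at h'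
            simp [shift] at h'
    intro s t
    rcases s with s | s <;> rcases t with t | t
    · show x.1 s = x.1 t ↔ (Sum.inl (x' s) : Big m j p) = Sum.inl (x' t)
      rw [Sum.inl_injective.eq_iff]
      exact (hx'x s t).symm
    · exact hcross s t
    · show shift i (x.1 s) = x.1 t ↔ shift i (x.1 s) = (Sum.inl (x' t) : Big m j p)
      rw [eq_comm, hcross t s, eq_comm]
    · exact Iff.rfl
  · intro x y
    rw [Subtype.mk.injEq, he]
    show I.eqv.Sat (Sum.elim ((Sum.inl : Fin m → Big m j p) ∘ x.1) ((Sum.inl : Fin m → Big m j p) ∘ y.1)) ↔ _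
    rw [elim_comp]
    exact (eqvM _ _ (sameType_comp _ _ Sum.inl_injective)).symm
  · intro x y
    show G.Adj (g _) (g _) ↔ _
    rw [ha]
    show I.adj.Sat (Sum.elim ((Sum.inl : Fin m → Big m j p) ∘ x.1) ((Sum.inl : Fin m → Big m j p) ∘ y.1)) ↔ _
    rw [elim_comp]
    exact (adjM _ _ (sameType_comp _ _ Sum.inl_injective)).symm

theorem gives_card {Q : ℕ} (I : Interp Q) (A : Type) [Finite A] {V : Type} (G : SimpleGraph V)
    (h : I.Gives A G) : Finite V ∧ Nat.card V ≤ Nat.card A ^ I.k := by
  classical
  obtain ⟨g, hg, -, -⟩ := h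
  have hfin : Finite V := Finite.of_surjective g hg
  refine ⟨hfin, ?_⟩
  have h1 : Nat.card V ≤ Nat.card {x : Fin I.k → A // I.dom.Sat x} :=
    Nat.card_le_card_of_surjective g hg
  have h2 : Nat.card {x : Fin I.k → A // I.dom.Sat x} ≤ Nat.card (Fin I.k → A) :=
    Nat.card_le_card_of_injective _ Subtype.val_injective
  have h3 : Nat.card (Fin I.k → A) = Nat.card A ^ I.k := by
    rw [Nat.card_fun, Nat.card_eq_fintype_card (α := Fin I.k), Fintype.card_fin]
  omega

theorem closure {Q : ℕ} (R : Set ℕ) (h : ReducesToGI Q R) :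
    ∃ N K : ℕ, ∀ m ≥ N, ∀ p : ℕ, p.Prime → m ^ K < p → ∀ j : ℕ, Q ∣ p * j →
      m + p * j ∈ R → m ∈ R := by
  obtain ⟨I, J, n₀, hIJ⟩ := h
  refine ⟨n₀ + 2 * (2 * I.k + I.r) + 2 * (2 * J.k + J.r) + I.k ^ 2 + J.k ^ 2 + 1, I.k + J.k + 1, ?_⟩
  intro m hm p hp hmp j hQ hR
  have : Fact p.Prime := ⟨hp⟩
  have hcardB : Nat.card (Big m j p) = m + p * j := by
    rw [Nat.card_sum, Nat.card_prod, Nat.card_zmod, Nat.card_eq_fintype_card,
      Nat.card_eq_fintype_card, Fintype.card_fin, Fintype.card_fin, mul_comm j p]
  have hcardm : Nat.card (Fin m) = m := by rw [Nat.card_eq_fintype_card, Fintype.card_fin]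
  have hmpos : 1 ≤ m := by omega
  have hmp1 : m < p := by
    have : m ^ 1 ≤ m ^ (I.k + J.k + 1) := Nat.pow_le_pow_right hmpos (by omega)
    rw [pow_one] at this
    omega
  have hpI : m ^ I.k < p := lt_of_le_of_lt (Nat.pow_le_pow_right hmpos (by omega)) hmp
  have hpJ : m ^ J.k < p := lt_of_le_of_lt (Nat.pow_le_pow_right hmpos (by omega)) hmp
  have : NeZero p := ⟨hp.ne_zero⟩
  obtain ⟨V, W, G, H, hG, hH, hiff⟩ := hIJ (Big m j p) (by rw [hcardB]; omega)
  obtain ⟨V', W', G', H', hG', hH', hiff'⟩ := hIJ (Fin m) (by rw [hcardm]; omega)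
  rw [hcardB] at hiff
  rw [hcardm] at hiff'
  obtain ⟨f⟩ := hiff.1 hR
  obtain ⟨a, hap, haG⟩ := fixed_structure I m j p hQ (by omega) (by omega) G hG
  obtain ⟨b, hbp, hbH⟩ := fixed_structure J m j p hQ (by omega) (by omega) H hH
  have hVfin : Finite V := (gives_card I _ G hG).1
  have hca : Nat.card {v // a v = v} < p := by
    have := (gives_card I _ _ haG).2
    rw [hcardm] at this
    exact lt_of_le_of_lt this hpI
  have hcb : Nat.card {v // b v = v} < p := by
    have := (gives_card J _ _ hbH).2
    rw [hcardm] at this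
    exact lt_of_le_of_lt this hpJ
  obtain ⟨φ⟩ := sylow_core G H f p a b hap hbp hca hcb
  obtain ⟨α⟩ := gives_unique I _ _ _ hG' haG
  obtain ⟨β⟩ := gives_unique J _ _ _ hbH hH'
  exact hiff'.2 ⟨(α.trans φ).trans β⟩

theorem even_not_reducible : ¬ ReducesToGI 1 {n | Even n} := by
  intro h
  obtain ⟨N, K, hNK⟩ := closure _ h
  obtain ⟨p, hp1, hp⟩ := Nat.exists_infinite_primes ((2 * N + 1) ^ K + 3)
  have h1 := hNK (2 * N + 1) (by omega) p hp (by omega) 1 (one_dvd _)
  have hpo : Odd p := hp.odd_of_ne_two (by omega)
  have h2 : (2 * N + 1) + p * 1 ∈ {n : ℕ | Even n} := by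
    rw [mul_one]
    exact Odd.add_odd ⟨N, rfl⟩ hpo
  have h3 : Even (2 * N + 1) := h1 h2
  exact (Nat.not_even_iff_odd.2 ⟨N, rfl⟩) h3

/-- Sanity check: with modulus `2`, evenness of the number of elements does reduce. -/
theorem even_reducible : ReducesToGI 2 {n | Even n} := by
  classical
  have htr : ∀ {V A : Type} [DecidableEq V] (v : V → A),
      (Fml.conj Empty (fun s => s.elim) : Fml 2 V).Holds v := by
    intro V A _ v s
    exact s.elim
  refine ⟨⟨0, 1, Fml.cnt (Sum.inr 0) 0 (Fml.conj Empty (fun s => s.elim)),
    Fml.conj Empty (fun s => s.elim), Fml.neg (Fml.conj Empty (fun s => s.elim))⟩,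
    ⟨0, 0, Fml.conj Empty (fun s => s.elim), Fml.conj Empty (fun s => s.elim),
      Fml.neg (Fml.conj Empty (fun s => s.elim))⟩, 1, ?_⟩
  intro A _ hA
  have hne : Nonempty A := (Nat.card_pos_iff.1 (by omega)).1
  obtain ⟨a₀⟩ := hne
  refine ⟨_, _, ⊥, ⊥, ⟨id, Function.surjective_id, ?_, ?_⟩, ⟨id, Function.surjective_id, ?_, ?_⟩, ?_⟩
  · intro x y
    refine ⟨fun _ u => htr _, fun _ => ?_⟩
    apply Subtype.ext
    funext s
    exact s.elim0
  · intro x y
    exact ⟨fun h => h.elim, fun h => (h (fun _ => a₀) (htr _)).elim⟩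
  · intro x y
    refine ⟨fun _ u => htr _, fun _ => ?_⟩
    apply Subtype.ext
    funext s
    exact s.elim0
  · intro x y
    exact ⟨fun h => h.elim, fun h => (h (fun s => s.elim0) (htr _)).elim⟩
  · have hcard : ∀ v : (Fin 0 ⊕ Fin 1) → A, Nat.card {a : A // (Fml.conj Empty (fun s => s.elim) :
        Fml 2 (Fin 0 ⊕ Fin 1)).Holds (Function.update v (Sum.inr 0) a)} = Nat.card A := by
      intro v
      exact Nat.card_congr (Equiv.subtypeUnivEquiv (fun a => htr _))
    constructor
    · intro hev
      have hmod : Nat.card A ≡ 0 [MOD 2] := by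
        obtain ⟨c, hc⟩ := hev
        rw [hc]
        exact (Nat.modEq_zero_iff_dvd).2 ⟨c, by ring⟩
      refine ⟨{ toFun := fun _ => ⟨fun s => s.elim0, fun u => htr _⟩
                invFun := fun _ => ⟨fun s => s.elim0, fun u => ?_⟩
                left_inv := ?_
                right_inv := ?_
                map_rel_iff' := ?_ }⟩
      · show Nat.card _ ≡ 0 [MOD 2]
        rw [hcard]
        exact hmod
      · intro x
        apply Subtype.ext
        funext s
        exact s.elim0
      · intro x
        apply Subtype.ext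
        funext s
        exact s.elim0
      · intro x y
        exact Iff.rfl
    · rintro ⟨f⟩
      have x := f.symm ⟨fun s => s.elim0, fun u => htr _⟩
      have hx : Nat.card _ ≡ 0 [MOD 2] := x.2 (fun _ => a₀)
      rw [hcard] at hx
      exact (even_iff_two_dvd).2 ((Nat.modEq_zero_iff_dvd).1 hx)

/-- **Main theorem.** For every modulus `Q ≥ 1`, the problem whether the number of elements of a finite pure
set is not a perfect square has no order-free reduction to GRAPH ISOMORPHISM definable in the infinitary logic
with finitely many variables, modular counting quantifiers of modulus `Q` and cardinality comparison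
quantifiers. -/
theorem result (Q : ℕ) (hQ : 0 < Q) : ¬ ReducesToGI Q {n | ¬ IsSquare n} := by
  intro h
  obtain ⟨N, K, hNK⟩ := closure _ h
  let s := N + 1
  have hs : N < s := Nat.lt_succ_self N
  obtain ⟨p, hp1, hp⟩ := Nat.exists_infinite_primes ((s * s) ^ K + 1)
  have hpp := hp.pos
  have hss : s ≤ s * s := Nat.le_mul_of_pos_left s (by omega)
  have h1 := hNK (s * s) (by omega) p hp (by omega) (p * Q ^ 2 * (s * s) ^ 2)
    ⟨p * (p * Q * (s * s) ^ 2), by ring⟩
  have hX : p * (p * Q ^ 2 * (s * s) ^ 2) = (p * Q * (s * s)) * (p * Q * (s * s)) := by ring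
  have hle : s * s ≤ p * Q * (s * s) := Nat.le_mul_of_pos_left _ (Nat.mul_pos hpp hQ)
  rw [hX] at h1
  generalize hXd : p * Q * (s * s) = X at h1 hle
  have hspos : 0 < s * s := by positivity
  have h2 : s * s + X * X ∈ {n : ℕ | ¬ IsSquare n} := by
    rintro ⟨r, hr⟩
    have hr1 : X < r := by
      by_contra hcon
      push Not at hcon
      have := Nat.mul_le_mul hcon hcon
      omega
    have hr2 : r < X + 1 := by
      by_contra hcon
      push Not at hcon
      have := Nat.mul_le_mul hcon hcon
      have e : (X + 1) * (X + 1) = X * X + 2 * X + 1 := by ring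
      omega
    omega
  exact h1 h2 ⟨s, rfl⟩

end Pool.Agent.CRH.Withdrawn.OrderFree

/-
Claim of the withdrawn hand-in MP_128e7d_lc.OrderFree (helper86):
Proves: For every modulus Q >= 1, the problem the number of elements of a finite set is not a perfect square (instances: structures with empty vocabulary) has no order-free reduction to GRAPH ISOMORPHISM, i.e. there are no two parameter-free interpretations of graphs in pure sets, of any dimensions, with L(Q)-formulas, and no n0, such that for every finite set A with at least n0 elements they give graphs G, H with: |A| is a non-square iff G and H are isomorphic.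
Definitions: Fml/Holds: L(Q)-formulas over a variable set V (equality, negation, arbitrary conjunctions, exists x, the number of x with f is c mod Q, at least as many x satisfy f as g) and their truth; Sat: truth for all values of r auxiliary variables; Interp/Gives: domain, equality and edge formulas on k-tuples, and the graph they give; ReducesToGI Q R: two such interpretations reduce the problem |A| in R to GI for all large finite A.
Relation: Partial answer to Q2: GI is not NP-complete under order-free reductions definable in first-order logic or in infinitary logic with finitely many variables, even with mod-Q counting and majority quantifiers, since non-square size is trivially in P. (SAT is NP-complete under order-free first-order reductions: Lovasz-Gacs 1977, Dahlhaus 1984.) General polynomial-time reductions are not treated. Proof idea: Sylow subgroups of Aut(G). I know of no earlier result of this kind.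
-/
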